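import Pool.Agent.Lib.MP_4fbe7c_an.UL.Iface

/-!
Project UL (MP_4fbe7c_an), module HSB: lower bound for `H`.
-/

set_option autoImplicit false

open Set

namespace Pool.Agent.Lib.MP_4fbe7c_an.UL.H54

open Pool.Agent.Lib.MP_4fbe7c_an.UL

theorem sta_pos {n : ℕ} {r S Z ZZ : ℕ → ℝ} (h : Sta n r S Z ZZ) : ∀ k, k ≤ n → 0 < S k := by
  intro k
  induction k with
  | zero => intro _; exact h.S0
  | succ k ih => intro hk; exact (ih (by omega)).trans_le (h.mono k (by omega))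

theorem sta_le {n : ℕ} {r S Z ZZ : ℕ → ℝ} (h : Sta n r S Z ZZ) {i : ℕ} :
    ∀ k, i ≤ k → k ≤ n → S i ≤ S k := by
  intro k hik
  induction k, hik using Nat.le_induction with
  | base => intro _; exact le_rfl
  | succ k hk ih => intro hkn; exact (ih (by omega)).trans (h.mono k (by omega))

theorem sta_le_one {n : ℕ} {r S Z ZZ : ℕ → ℝ} (h : Sta n r S Z ZZ) {k : ℕ} (hk : k ≤ n) :
    S k ≤ 1 := by
  have := sta_le h n hk le_rfl
  rwa [h.Sn] at this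

/-- Summation by parts. -/
theorem abelIco {c n : ℕ} (hc : c ≤ n) (σ A : ℕ → ℝ) (hA : A c = 0) :
    ∑ j ∈ Finset.Ico c n, σ (j + 1) * (A (j + 1) - A j) =
      σ n * A n + ∑ l ∈ Finset.Ico c n, A l * (σ l - σ (l + 1)) := by
  induction n, hc using Nat.le_induction with
  | base => simp [hA]
  | succ n hn ih =>
    rw [Finset.sum_Ico_succ_top hn, Finset.sum_Ico_succ_top hn, ih]
    ring

theorem teleIco {c n : ℕ} (hc : c ≤ n) (f : ℕ → ℝ) :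
    ∑ j ∈ Finset.Ico c n, (f j - f (j + 1)) = f c - f n := by
  induction n, hc using Nat.le_induction with
  | base => simp
  | succ n hn ih =>
    rw [Finset.sum_Ico_succ_top hn, ih]
    ring

/-- The identity for one term of `H`. -/
theorem term_id {Sc Sk Zc Zk ZZc ZZk ν r r' : ℝ} (hSc : Sc ≠ 0) (hSk : Sk ≠ 0) (hν : ν = r - r') :
    ν * (Sc / Sk * ((Zc / Sc - Zk / Sk) * (ZZc / Sc - ZZk / Sk))
      - (1 - Sc / Sk) * (Zk / Sk * (ZZk / Sk) - Zc / Sc * (ZZc / Sc))) =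
    ν * ((1 - Sc / Sk) ^ 2 * (1 + 2 * (Sc / Sk))) * (Zc / Sc * (ZZc / Sc))
    - 2 * (Zc / Sc) * ((Sc / Sk ^ 2 - Sc ^ 2 / Sk ^ 3) * (ν * (ZZk - ZZc)))
    - 2 * (ZZc / Sc) * (ν * (Sc / Sk * (1 - Sc / Sk)) * ((Zk - Zc) / Sk))
    + 1 / 2 * ((2 * Sc / Sk ^ 3 - 1 / Sk ^ 2) * (2 * ν * (Zk - Zc) * (ZZk - ZZc)
        - (r ^ 2 - r' ^ 2) * (ZZk - ZZc) ^ 2))
    + 1 / 2 * ((2 * (Sc / Sk) - 1) * ((r ^ 2 - r' ^ 2) * ((ZZk - ZZc) / Sk) ^ 2)) := by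
  subst hν
  field_simp
  ring

theorem poly_i {q : ℝ} (h0 : 0 ≤ q) (h1 : q ≤ 1) :
    0 ≤ (1 - q) ^ 2 * (1 + 2 * q) ∧ (1 - q) ^ 2 * (1 + 2 * q) ≤ 9 / 8 * (1 - q) := by
  constructor
  · positivity
  · have h : (1 - q) * (1 + 2 * q) ≤ 9 / 8 := by nlinarith [sq_nonneg (q - 1 / 4)]
    have h' : 0 ≤ 1 - q := by linarith
    nlinarith

/-- Cubes and squares of the reciprocals. -/
theorem cube_le {Sc x x' : ℝ} (hx' : 0 ≤ x') (hxx : x' ≤ x) (hS : 0 ≤ Sc) (hSx : Sc * x ≤ 1) :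
    0 ≤ Sc * (x ^ 3 - x' ^ 3) ∧ Sc * (x ^ 3 - x' ^ 3) ≤ 3 / 2 * (x ^ 2 - x' ^ 2) := by
  have h1 : 0 ≤ x - x' := by linarith
  have hx : 0 ≤ x := hx'.trans hxx
  have e1 : x ^ 3 - x' ^ 3 = (x - x') * (x ^ 2 + x * x' + x' ^ 2) := by ring
  have h2 : 0 ≤ x ^ 3 - x' ^ 3 := by
    rw [e1]
    positivity
  have h3 : x ^ 3 - x' ^ 3 ≤ 3 / 2 * x * (x ^ 2 - x' ^ 2) := by
    have : x ^ 2 + x * x' + x' ^ 2 ≤ 3 / 2 * x * (x + x') := by nlinarith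
    have e2 : 3 / 2 * x * (x ^ 2 - x' ^ 2) = (x - x') * (3 / 2 * x * (x + x')) := by ring
    rw [e1, e2]
    exact mul_le_mul_of_nonneg_left this h1
  refine ⟨mul_nonneg hS h2, ?_⟩
  have h4 : 0 ≤ x ^ 2 - x' ^ 2 := by nlinarith
  calc Sc * (x ^ 3 - x' ^ 3) ≤ Sc * (3 / 2 * x * (x ^ 2 - x' ^ 2)) :=
        mul_le_mul_of_nonneg_left h3 hS
    _ = (Sc * x) * (3 / 2 * (x ^ 2 - x' ^ 2)) := by ring
    _ ≤ 1 * (3 / 2 * (x ^ 2 - x' ^ 2)) := by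
        apply mul_le_mul_of_nonneg_right hSx
        linarith
    _ = _ := by ring

theorem gs_ge {r r' : ℝ} (h0 : 0 ≤ r') (h1 : r' ≤ r) (h2 : r < 1) :
    r ^ 2 - r' ^ 2 ≤ hh r - hh r' := by
  have hr : 0 ≤ r := h0.trans h1
  have h3 : 0 < 1 - r ^ 2 := by nlinarith
  have h4 : 0 < 1 - r' ^ 2 := by nlinarith
  have e : hh r - hh r' = (r ^ 2 - r' ^ 2) / ((1 - r ^ 2) * (1 - r' ^ 2)) := by
    unfold hh
    field_simp
    ring
  rw [e, le_div_iff₀ (by positivity)]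
  have h5 : 0 ≤ r ^ 2 - r' ^ 2 := by nlinarith
  have h6 : (1 - r ^ 2) * (1 - r' ^ 2) ≤ 1 := by nlinarith [sq_nonneg r, sq_nonneg r']
  nlinarith

theorem five_sq (a b c d e : ℝ) :
    (a + b + c + d + e) ^ 2 ≤ 5 * (a ^ 2 + b ^ 2 + c ^ 2 + d ^ 2 + e ^ 2) := by
  nlinarith [sq_nonneg (a - b), sq_nonneg (a - c), sq_nonneg (a - d), sq_nonneg (a - e),
    sq_nonneg (b - c), sq_nonneg (b - d), sq_nonneg (b - e), sq_nonneg (c - d),
    sq_nonneg (c - e), sq_nonneg (d - e)]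

/-! ### Facts on the parameters -/

section facts

variable {n c : ℕ} {r S Z ZZ : ℕ → ℝ}

theorem rts_nonneg (hR : Rts n c r) : ∀ k, k ≤ n + 1 → 0 ≤ r k := by
  intro k hk
  rcases Nat.lt_or_ge n k with h | h
  · have : k = n + 1 := by omega
    rw [this, hR.rlast]
  · exact (hR.rpos k h).le

theorem nu_nonneg (hR : Rts n c r) : ∀ j, j ∈ Finset.Ico c n → 0 ≤ nu r (j + 1) := by
  intro j hj
  have hj' := Finset.mem_Ico.mp hj
  have := hR.ranti (j + 1) (by omega)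
  unfold nu
  linarith

theorem nu_sum (hR : Rts n c r) (hcn : c < n) : ∑ j ∈ Finset.Ico c n, nu r (j + 1) ≤ 1 / 3 := by
  have := teleIco hcn.le (fun k => r (k + 1))
  unfold nu
  rw [this, hR.rlast]
  have := hR.rc' (c + 1) (by omega) (by omega)
  linarith

theorem q_facts (hS : Sta n r S Z ZZ) (hcn : c < n) : ∀ j, j ∈ Finset.Ico c n →
    0 ≤ S c / S (j + 1) ∧ S c / S (j + 1) ≤ 1 ∧ 1 - S c / S (j + 1) ≤ 1 - S c := by
  intro j hj
  have hj' := Finset.mem_Ico.mp hj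
  have hSc : 0 < S c := sta_pos hS c hcn.le
  have hSk : 0 < S (j + 1) := sta_pos hS (j + 1) (by omega)
  have hSk1 : S (j + 1) ≤ 1 := sta_le_one hS (by omega)
  have hle : S c ≤ S (j + 1) := sta_le hS (j + 1) (by omega) (by omega)
  refine ⟨by positivity, (div_le_one hSk).mpr hle, ?_⟩
  have : S c ≤ S c / S (j + 1) := by
    rw [le_div_iff₀ hSk]
    nlinarith
  linarith

theorem dy_nonneg (hS : Sta n r S Z ZZ) : ∀ l, l ∈ Finset.Ico c n → 0 ≤ dy S l := by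
  intro l hl
  have hl' := Finset.mem_Ico.mp hl
  have h1 : 0 < S l := sta_pos hS l (by omega)
  have h2 : S l ≤ S (l + 1) := hS.mono l hl'.2
  unfold dy
  have : 1 / S (l + 1) ^ 2 ≤ 1 / S l ^ 2 := by
    apply one_div_le_one_div_of_le (by positivity)
    exact pow_le_pow_left₀ h1.le h2 2
  linarith

theorem cube_facts (hS : Sta n r S Z ZZ) (hcn : c < n) : ∀ l, l ∈ Finset.Ico c n →
    0 ≤ S c * (1 / S l ^ 3 - 1 / S (l + 1) ^ 3) ∧
    S c * (1 / S l ^ 3 - 1 / S (l + 1) ^ 3) ≤ 3 / 2 * dy S l := by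
  intro l hl
  have hl' := Finset.mem_Ico.mp hl
  have hSc : 0 < S c := sta_pos hS c hcn.le
  have h1 : 0 < S l := sta_pos hS l (by omega)
  have h1' : 0 < S (l + 1) := sta_pos hS (l + 1) (by omega)
  have h2 : S l ≤ S (l + 1) := hS.mono l hl'.2
  have h3 : S c ≤ S l := sta_le hS l hl'.1 (by omega)
  have := cube_le (Sc := S c) (x := 1 / S l) (x' := 1 / S (l + 1)) (by positivity)
    (one_div_le_one_div_of_le h1 h2) hSc.le (by
      rw [mul_one_div]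
      exact (div_le_one h1).mpr h3)
  simp only [one_div, inv_pow, dy] at this ⊢
  exact this

theorem r2_facts (hR : Rts n c r) : ∀ j, j ∈ Finset.Ico c n →
    0 ≤ r (j + 1) ^ 2 - r (j + 2) ^ 2 ∧
    r (j + 1) ^ 2 - r (j + 2) ^ 2 ≤ 2 / 3 * nu r (j + 1) ∧
    r (j + 1) ^ 2 - r (j + 2) ^ 2 ≤ Gs r (j + 1) := by
  intro j hj
  have hj' := Finset.mem_Ico.mp hj
  have h0 := rts_nonneg hR (j + 2) (by omega)
  have h0' := rts_nonneg hR (j + 1) (by omega)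
  have h1 : r (j + 2) ≤ r (j + 1) := hR.ranti (j + 1) (by omega)
  have h2 := hR.rc' (j + 1) (by omega) (by omega)
  have h3 := hR.rc' (j + 2) (by omega) (by omega)
  have e : nu r (j + 1) = r (j + 1) - r (j + 2) := rfl
  refine ⟨by nlinarith, ?_, ?_⟩
  · rw [e]
    nlinarith
  · exact gs_ge h0 h1 (by linarith)

theorem dy_sum (hS : Sta n r S Z ZZ) (hcn : c < n) :
    S c ^ 2 * ∑ l ∈ Finset.Ico c n, dy S l ≤ 2 * (1 - S c) := by
  have hSc : 0 < S c := sta_pos hS c hcn.le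
  have hSc1 : S c ≤ 1 := sta_le_one hS hcn.le
  have := teleIco hcn.le (fun k => 1 / S k ^ 2)
  unfold dy
  rw [this, hS.Sn, mul_sub, mul_one_div, div_self (by positivity)]
  nlinarith

end facts

/-- `α'_k`. -/
noncomputable def ap (c : ℕ) (r Z ZZ : ℕ → ℝ) (k : ℕ) : ℝ :=
  (Z k - Z c) - r (k + 1) * (ZZ k - ZZ c)

/-- `q (1 - q) x`. -/
noncomputable def s1 (c : ℕ) (S : ℕ → ℝ) (k : ℕ) : ℝ := S c / S k ^ 2 - S c ^ 2 / S k ^ 3

/-- `(2 q - 1) y`. -/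
noncomputable def s2 (c : ℕ) (S : ℕ → ℝ) (k : ℕ) : ℝ := 2 * S c / S k ^ 3 - 1 / S k ^ 2

/-- The sum with `E`. -/
noncomputable def Esum (n c : ℕ) (r S ZZ : ℕ → ℝ) : ℝ :=
  ∑ j ∈ Finset.Ico c n, (r (j + 1) ^ 2 - r (j + 2) ^ 2) * ((ZZ (j + 1) - ZZ c) / S (j + 1)) ^ 2

section pieces

variable {n c : ℕ} {r S Z ZZ : ℕ → ℝ}

theorem hsb_exact (hR : Rts n c r) (hS : Sta n r S Z ZZ) (hcn : c < n) :
    Hf n c r S Z ZZ =
      (∑ j ∈ Finset.Ico c n, nu r (j + 1) * ((1 - S c / S (j + 1)) ^ 2 *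
        (1 + 2 * (S c / S (j + 1))))) * (bs S Z c * bs S ZZ c)
      - 2 * bs S Z c * (s1 c S n * ap c r Z ZZ n +
          ∑ l ∈ Finset.Ico c n, ap c r Z ZZ l * (s1 c S l - s1 c S (l + 1)))
      - 2 * bs S ZZ c * (∑ j ∈ Finset.Ico c n, nu r (j + 1) *
          (S c / S (j + 1) * (1 - S c / S (j + 1))) * ((Z (j + 1) - Z c) / S (j + 1)))
      + 1 / 2 * (s2 c S n * ap c r Z ZZ n ^ 2 +
          ∑ l ∈ Finset.Ico c n, ap c r Z ZZ l ^ 2 * (s2 c S l - s2 c S (l + 1)))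
      + 1 / 2 * (∑ j ∈ Finset.Ico c n, (2 * (S c / S (j + 1)) - 1) *
          ((r (j + 1) ^ 2 - r (j + 2) ^ 2) * ((ZZ (j + 1) - ZZ c) / S (j + 1)) ^ 2)) := by
  have hSc : 0 < S c := sta_pos hS c hcn.le
  have F1 : ∀ j, j ∈ Finset.Ico c n →
      ap c r Z ZZ (j + 1) - ap c r Z ZZ j = nu r (j + 1) * (ZZ (j + 1) - ZZ c) := by
    intro j hj
    have hj' := Finset.mem_Ico.mp hj
    have := hS.step j hj'.2
    simp only [ap, nu]
    linear_combination -this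
  have F2 : ∀ j, j ∈ Finset.Ico c n → ap c r Z ZZ (j + 1) ^ 2 - ap c r Z ZZ j ^ 2 =
      2 * nu r (j + 1) * (Z (j + 1) - Z c) * (ZZ (j + 1) - ZZ c)
        - (r (j + 1) ^ 2 - r (j + 2) ^ 2) * (ZZ (j + 1) - ZZ c) ^ 2 := by
    intro j hj
    have hj' := Finset.mem_Ico.mp hj
    have hst := hS.step j hj'.2
    have e1 : ap c r Z ZZ j = (Z (j + 1) - Z c) - r (j + 1) * (ZZ (j + 1) - ZZ c) := by
      simp only [ap]
      linear_combination hst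
    rw [e1]
    simp only [ap, nu]
    ring
  have hac : ap c r Z ZZ c = 0 := by simp [ap]
  have hH : Hf n c r S Z ZZ =
      (∑ j ∈ Finset.Ico c n, nu r (j + 1) * ((1 - S c / S (j + 1)) ^ 2 *
        (1 + 2 * (S c / S (j + 1))))) * (bs S Z c * bs S ZZ c)
      - 2 * bs S Z c * (∑ j ∈ Finset.Ico c n,
          s1 c S (j + 1) * (ap c r Z ZZ (j + 1) - ap c r Z ZZ j))
      - 2 * bs S ZZ c * (∑ j ∈ Finset.Ico c n, nu r (j + 1) *
          (S c / S (j + 1) * (1 - S c / S (j + 1))) * ((Z (j + 1) - Z c) / S (j + 1)))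
      + 1 / 2 * (∑ j ∈ Finset.Ico c n,
          s2 c S (j + 1) * (ap c r Z ZZ (j + 1) ^ 2 - ap c r Z ZZ j ^ 2))
      + 1 / 2 * (∑ j ∈ Finset.Ico c n, (2 * (S c / S (j + 1)) - 1) *
          ((r (j + 1) ^ 2 - r (j + 2) ^ 2) * ((ZZ (j + 1) - ZZ c) / S (j + 1)) ^ 2)) := by
    unfold Hf
    rw [Finset.sum_mul, Finset.mul_sum, Finset.mul_sum, Finset.mul_sum, Finset.mul_sum,
      ← Finset.sum_sub_distrib, ← Finset.sum_sub_distrib, ← Finset.sum_add_distrib,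
      ← Finset.sum_add_distrib]
    apply Finset.sum_congr rfl
    intro j hj
    have hj' := Finset.mem_Ico.mp hj
    have hSk : 0 < S (j + 1) := sta_pos hS (j + 1) (by omega)
    rw [F1 j hj, F2 j hj]
    simp only [bs, s1, s2]
    exact term_id hSc.ne' hSk.ne' rfl
  rw [abelIco hcn.le (s1 c S) (ap c r Z ZZ) hac,
    abelIco hcn.le (s2 c S) (fun k => ap c r Z ZZ k ^ 2) (by simp [hac])] at hH
  exact hH

theorem hsb_B1 (hR : Rts n c r) (hS : Sta n r S Z ZZ) (hcn : c < n) :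
    -(3 / 8 * (1 - S c) * |bs S Z c * bs S ZZ c|) ≤
      (∑ j ∈ Finset.Ico c n, nu r (j + 1) * ((1 - S c / S (j + 1)) ^ 2 *
        (1 + 2 * (S c / S (j + 1))))) * (bs S Z c * bs S ZZ c) := by
  have hτ0 : 0 ≤ 1 - S c := by linarith [sta_le_one hS hcn.le]
  set sm1 := ∑ j ∈ Finset.Ico c n, nu r (j + 1) * ((1 - S c / S (j + 1)) ^ 2 *
      (1 + 2 * (S c / S (j + 1)))) with hsm1
  have h0 : 0 ≤ sm1 := Finset.sum_nonneg fun j hj =>
    mul_nonneg (nu_nonneg hR j hj) (poly_i (q_facts hS hcn j hj).1 (q_facts hS hcn j hj).2.1).1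
  have h1 : sm1 ≤ 3 / 8 * (1 - S c) := by
    calc sm1 ≤ ∑ j ∈ Finset.Ico c n, nu r (j + 1) * (9 / 8 * (1 - S c)) := by
          apply Finset.sum_le_sum
          intro j hj
          apply mul_le_mul_of_nonneg_left _ (nu_nonneg hR j hj)
          have := (poly_i (q_facts hS hcn j hj).1 (q_facts hS hcn j hj).2.1).2
          linarith [(q_facts hS hcn j hj).2.2]
      _ = (∑ j ∈ Finset.Ico c n, nu r (j + 1)) * (9 / 8 * (1 - S c)) := by rw [Finset.sum_mul]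
      _ ≤ 1 / 3 * (9 / 8 * (1 - S c)) := by
          apply mul_le_mul_of_nonneg_right (nu_sum hR hcn)
          positivity
      _ = _ := by ring
  have h2 : sm1 * |bs S Z c * bs S ZZ c| ≤ 3 / 8 * (1 - S c) * |bs S Z c * bs S ZZ c| :=
    mul_le_mul_of_nonneg_right h1 (abs_nonneg _)
  have h3 : -(sm1 * |bs S Z c * bs S ZZ c|) ≤ sm1 * (bs S Z c * bs S ZZ c) := by
    have := mul_le_mul_of_nonneg_left (neg_abs_le (bs S Z c * bs S ZZ c)) h0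
    linarith
  linarith

theorem hsb_B2a (hS : Sta n r S Z ZZ) (hcn : c < n) :
    -((1 - S c) * (bs S Z c ^ 2 + ap c r Z ZZ n ^ 2)) ≤
      -(2 * bs S Z c * (s1 c S n * ap c r Z ZZ n)) := by
  have hSc : 0 < S c := sta_pos hS c hcn.le
  have hSc1 : S c ≤ 1 := sta_le_one hS hcn.le
  have e : s1 c S n = S c * (1 - S c) := by
    simp only [s1, hS.Sn]
    ring
  rw [e]
  set a := bs S Z c
  set b := ap c r Z ZZ n
  have h1 : 2 * a * b ≤ a ^ 2 + b ^ 2 := by nlinarith [sq_nonneg (a - b)]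
  have h3 : S c * (2 * a * b) ≤ a ^ 2 + b ^ 2 := by
    have h0 : 0 ≤ a ^ 2 + b ^ 2 := by positivity
    have h4 := mul_le_mul_of_nonneg_left h1 hSc.le
    have h5 := mul_le_mul_of_nonneg_right hSc1 h0
    linarith
  have h6 := mul_le_mul_of_nonneg_left h3 (by linarith : 0 ≤ 1 - S c)
  linarith

theorem hsb_B2b (hS : Sta n r S Z ZZ) (hcn : c < n) :
    -(∑ l ∈ Finset.Ico c n, dy S l *
        (1 / 2 * ap c r Z ZZ l ^ 2 + 9 / 2 * (S c * bs S Z c) ^ 2)) ≤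
      -(2 * bs S Z c * ∑ l ∈ Finset.Ico c n, ap c r Z ZZ l * (s1 c S l - s1 c S (l + 1))) := by
  rw [neg_le_neg_iff, Finset.mul_sum]
  apply Finset.sum_le_sum
  intro l hl
  have h1 := cube_facts hS hcn l hl
  have h2 := dy_nonneg hS l hl
  have hl' := Finset.mem_Ico.mp hl
  have h5 : 0 < S l := sta_pos hS l (by omega)
  have h6 : 0 < S (l + 1) := sta_pos hS (l + 1) (by omega)
  have e : s1 c S l - s1 c S (l + 1) =
      S c * (dy S l - S c * (1 / S l ^ 3 - 1 / S (l + 1) ^ 3)) := by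
    simp only [s1, dy]
    field_simp
    ring
  rw [e]
  set P := dy S l - S c * (1 / S l ^ 3 - 1 / S (l + 1) ^ 3) with hP'
  have hP1 : |P| ≤ 3 / 2 * dy S l := by
    rw [abs_le]
    constructor <;> linarith [h1.1, h1.2]
  set a := ap c r Z ZZ l
  have h7 : 2 * bs S Z c * (a * (S c * P)) ≤ 2 * (|a| * |S c * bs S Z c|) * |P| := by
    have := le_abs_self ((a * (S c * bs S Z c)) * P)
    rw [abs_mul, abs_mul] at this
    linarith
  have h8 : 2 * (|a| * |S c * bs S Z c|) * |P| ≤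
      2 * (|a| * |S c * bs S Z c|) * (3 / 2 * dy S l) := by
    apply mul_le_mul_of_nonneg_left hP1
    positivity
  have h9 : 3 * (|a| * |S c * bs S Z c|) ≤ 1 / 2 * a ^ 2 + 9 / 2 * (S c * bs S Z c) ^ 2 := by
    rw [← sq_abs a, ← sq_abs (S c * bs S Z c)]
    nlinarith [sq_nonneg (|a| - 3 * |S c * bs S Z c|)]
  have h10 := mul_le_mul_of_nonneg_left h9 h2
  linarith

theorem hsb_B3 (hR : Rts n c r) (hS : Sta n r S Z ZZ) (hcn : c < n) (ζ X : ℝ)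
    (hX : X = bs S Z c - ζ) :
    -(1 / 3 * ((1 - S c) * (3 * bs S ZZ c ^ 2 + 2 * ζ ^ 2 + 2 * X ^ 2)) +
        1 / 2 * Bq n c r S Z ζ) ≤
      -(2 * bs S ZZ c * (∑ j ∈ Finset.Ico c n, nu r (j + 1) *
          (S c / S (j + 1) * (1 - S c / S (j + 1))) * ((Z (j + 1) - Z c) / S (j + 1)))) := by
  have hSc : 0 < S c := sta_pos hS c hcn.le
  have hSc1 : S c ≤ 1 := sta_le_one hS hcn.le
  have hB : ∀ j, j ∈ Finset.Ico c n → (Z (j + 1) - Z c) / S (j + 1) =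
      (1 - S c / S (j + 1)) * ζ + (bs S Z (j + 1) - ζ) - S c / S (j + 1) * X := by
    intro j hj
    have hj' := Finset.mem_Ico.mp hj
    have hSk : 0 < S (j + 1) := sta_pos hS (j + 1) (by omega)
    rw [hX]
    unfold bs
    field_simp
    ring
  have hτ0 : 0 ≤ 1 - S c := by linarith
  have h1 : 2 * bs S ZZ c * (∑ j ∈ Finset.Ico c n, nu r (j + 1) *
        (S c / S (j + 1) * (1 - S c / S (j + 1))) * ((Z (j + 1) - Z c) / S (j + 1))) ≤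
      (∑ j ∈ Finset.Ico c n, nu r (j + 1)) *
        ((1 - S c) * (3 * bs S ZZ c ^ 2 + 2 * ζ ^ 2 + 2 * X ^ 2)) +
        1 / 2 * Bq n c r S Z ζ := by
    unfold Bq
    rw [Finset.mul_sum, Finset.sum_mul, Finset.mul_sum, ← Finset.sum_add_distrib]
    apply Finset.sum_le_sum
    intro j hj
    obtain ⟨q0, q1, q2⟩ := q_facts hS hcn j hj
    rw [hB j hj]
    generalize 1 - S c = τ at q2 hτ0 ⊢
    set q := S c / S (j + 1) with hqd
    set t := bs S Z (j + 1) - ζ with ht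
    set e := bs S ZZ c with he
    have g1 : 0 ≤ q * (1 - q) := mul_nonneg q0 (by linarith)
    have g2 : q * (1 - q) ≤ τ := by nlinarith
    have g3 : 2 * e * (((1 - q) * ζ + t - q * X)) ≤
        2 * |e| * (|ζ| + |t| + |X|) := by
      have a1 := le_abs_self (e * ((1 - q) * ζ + t - q * X))
      rw [abs_mul] at a1
      have a2 : |(1 - q) * ζ + t - q * X| ≤ |ζ| + |t| + |X| := by
        have b1 := abs_sub ((1 - q) * ζ + t) (q * X)
        have b2 := abs_add_le ((1 - q) * ζ) t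
        have b3 : |(1 - q) * ζ| ≤ |ζ| := by
          rw [abs_mul, abs_of_nonneg (by linarith : 0 ≤ 1 - q)]
          nlinarith [abs_nonneg ζ]
        have b4 : |q * X| ≤ |X| := by
          rw [abs_mul, abs_of_nonneg q0]
          nlinarith [abs_nonneg X]
        linarith
      have a3 := mul_le_mul_of_nonneg_left a2 (abs_nonneg e)
      linarith
    have g4 : 2 * |e| * (|ζ| + |X|) ≤ e ^ 2 + 2 * ζ ^ 2 + 2 * X ^ 2 := by
      rw [← sq_abs e, ← sq_abs ζ, ← sq_abs X]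
      nlinarith [sq_nonneg (|e| - 2 * |ζ|), sq_nonneg (|e| - 2 * |X|)]
    have g5 : 2 * |e| * |t| ≤ 2 * e ^ 2 + 1 / 2 * t ^ 2 := by
      rw [← sq_abs e, ← sq_abs t]
      nlinarith [sq_nonneg (2 * |e| - |t|)]
    have hτ1 : τ * t ^ 2 ≤ t ^ 2 + τ * t ^ 2 := by nlinarith [sq_nonneg t]
    have g6 : q * (1 - q) * (2 * e * ((1 - q) * ζ + t - q * X)) ≤
        q * (1 - q) * (2 * |e| * (|ζ| + |t| + |X|)) := mul_le_mul_of_nonneg_left g3 g1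
    have g7 : q * (1 - q) * (2 * |e| * (|ζ| + |t| + |X|)) ≤
        τ * (3 * e ^ 2 + 2 * ζ ^ 2 + 2 * X ^ 2) + 1 / 2 * t ^ 2 := by
      have h1 : 2 * |e| * (|ζ| + |t| + |X|) ≤
          (3 * e ^ 2 + 2 * ζ ^ 2 + 2 * X ^ 2) + 1 / 2 * t ^ 2 := by linarith
      have h2 := mul_le_mul_of_nonneg_left h1 g1
      have h3 : q * (1 - q) * (3 * e ^ 2 + 2 * ζ ^ 2 + 2 * X ^ 2) ≤
          τ * (3 * e ^ 2 + 2 * ζ ^ 2 + 2 * X ^ 2) :=
        mul_le_mul_of_nonneg_right g2 (by positivity)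
      have h4 : q * (1 - q) * (1 / 2 * t ^ 2) ≤ 1 * (1 / 2 * t ^ 2) :=
        mul_le_mul_of_nonneg_right (by nlinarith) (by positivity)
      linarith
    have g8 := mul_le_mul_of_nonneg_left (g6.trans g7) (nu_nonneg hR j hj)
    linarith
  have h2 : (∑ j ∈ Finset.Ico c n, nu r (j + 1)) *
      ((1 - S c) * (3 * bs S ZZ c ^ 2 + 2 * ζ ^ 2 + 2 * X ^ 2)) ≤
      1 / 3 * ((1 - S c) * (3 * bs S ZZ c ^ 2 + 2 * ζ ^ 2 + 2 * X ^ 2)) :=
    mul_le_mul_of_nonneg_right (nu_sum hR hcn) (by positivity)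
  linarith

theorem hsb_B4 (hR : Rts n c r) (hS : Sta n r S Z ZZ) (hcn : c < n) :
    -(1 / 2 * (1 - S c) * ap c r Z ZZ n ^ 2) - 1 / 2 * (∑ l ∈ Finset.Ico c n,
        dy S l * ap c r Z ZZ l ^ 2) - 1 / 2 * (1 - S c) * Esum n c r S ZZ ≤
      1 / 2 * (s2 c S n * ap c r Z ZZ n ^ 2 +
          ∑ l ∈ Finset.Ico c n, ap c r Z ZZ l ^ 2 * (s2 c S l - s2 c S (l + 1)))
      + 1 / 2 * (∑ j ∈ Finset.Ico c n, (2 * (S c / S (j + 1)) - 1) *
          ((r (j + 1) ^ 2 - r (j + 2) ^ 2) * ((ZZ (j + 1) - ZZ c) / S (j + 1)) ^ 2)) := by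
  have hSc : 0 < S c := sta_pos hS c hcn.le
  have B4a : -((1 - S c) * ap c r Z ZZ n ^ 2) ≤ s2 c S n * ap c r Z ZZ n ^ 2 := by
    have e : s2 c S n = 2 * S c - 1 := by
      simp only [s2, hS.Sn]
      ring
    rw [e]
    nlinarith [mul_nonneg hSc.le (sq_nonneg (ap c r Z ZZ n))]
  have B4b : -(∑ l ∈ Finset.Ico c n, dy S l * ap c r Z ZZ l ^ 2) ≤
      ∑ l ∈ Finset.Ico c n, ap c r Z ZZ l ^ 2 * (s2 c S l - s2 c S (l + 1)) := by
    rw [← Finset.sum_neg_distrib]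
    apply Finset.sum_le_sum
    intro l hl
    have h1 := cube_facts hS hcn l hl
    have e : s2 c S l - s2 c S (l + 1) =
        2 * (S c * (1 / S l ^ 3 - 1 / S (l + 1) ^ 3)) - dy S l := by
      simp only [s2, dy]
      ring
    rw [e]
    nlinarith [mul_nonneg (sq_nonneg (ap c r Z ZZ l)) h1.1]
  have B4c : -((1 - S c) * Esum n c r S ZZ) ≤
      ∑ j ∈ Finset.Ico c n, (2 * (S c / S (j + 1)) - 1) *
          ((r (j + 1) ^ 2 - r (j + 2) ^ 2) * ((ZZ (j + 1) - ZZ c) / S (j + 1)) ^ 2) := by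
    unfold Esum
    rw [Finset.mul_sum, ← Finset.sum_neg_distrib]
    apply Finset.sum_le_sum
    intro j hj
    obtain ⟨q0, q1, q2⟩ := q_facts hS hcn j hj
    have h0 : 0 ≤ (r (j + 1) ^ 2 - r (j + 2) ^ 2) * ((ZZ (j + 1) - ZZ c) / S (j + 1)) ^ 2 :=
      mul_nonneg (r2_facts hR j hj).1 (sq_nonneg _)
    have h1 := mul_le_mul_of_nonneg_right
      (by linarith : -(1 - S c) ≤ 2 * (S c / S (j + 1)) - 1) h0
    linarith
  linarith

theorem hsb_BE (hR : Rts n c r) (hS : Sta n r S Z ZZ) (hcn : c < n) (ζ X Y : ℝ)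
    (hX : X = bs S Z c - ζ) (hY : Y = bs S ZZ c - bs S Z c) :
    Esum n c r S ZZ ≤
      5 / 9 * (ζ ^ 2 + X ^ 2 + Y ^ 2) + 10 / 3 * Bq n c r S Z ζ + 5 * Gq n c r S Z ZZ := by
  have hSc : 0 < S c := sta_pos hS c hcn.le
  have h1 : ∑ j ∈ Finset.Ico c n, (r (j + 1) ^ 2 - r (j + 2) ^ 2) ≤ 1 / 9 := by
    have := teleIco hcn.le (fun k => r (k + 1) ^ 2)
    have h2 := hR.rc' (c + 1) (by omega) (by omega)
    have h3 := rts_nonneg hR (c + 1) (by omega)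
    calc ∑ j ∈ Finset.Ico c n, (r (j + 1) ^ 2 - r (j + 2) ^ 2) =
        r (c + 1) ^ 2 - r (n + 1) ^ 2 := this
      _ ≤ 1 / 9 := by
        rw [hR.rlast]
        nlinarith
  have h2 : Esum n c r S ZZ ≤
    (∑ j ∈ Finset.Ico c n, (r (j + 1) ^ 2 - r (j + 2) ^ 2)) * (5 * (ζ ^ 2 + X ^ 2 + Y ^ 2)) +
      10 / 3 * Bq n c r S Z ζ + 5 * Gq n c r S Z ZZ := by
    unfold Bq Gq Esum
    rw [Finset.sum_mul, Finset.mul_sum, Finset.mul_sum, ← Finset.sum_add_distrib,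
      ← Finset.sum_add_distrib]
    apply Finset.sum_le_sum
    intro j hj
    have hj' := Finset.mem_Ico.mp hj
    have hSk : 0 < S (j + 1) := sta_pos hS (j + 1) (by omega)
    obtain ⟨q0, q1, q2⟩ := q_facts hS hcn j hj
    obtain ⟨w0, w1, w2⟩ := r2_facts hR j hj
    have e : (ZZ (j + 1) - ZZ c) / S (j + 1) =
        (1 - S c / S (j + 1)) * ζ + (bs S Z (j + 1) - ζ) +
        (bs S ZZ (j + 1) - bs S Z (j + 1)) + (-(S c / S (j + 1)) * X) +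
        (-(S c / S (j + 1)) * Y) := by
      rw [hX, hY]
      unfold bs
      field_simp
      ring
    rw [e]
    set q := S c / S (j + 1) with hqd
    set t := bs S Z (j + 1) - ζ with ht
    set δ := bs S ZZ (j + 1) - bs S Z (j + 1) with hδ
    have h3 := five_sq ((1 - q) * ζ) t δ (-q * X) (-q * Y)
    have h4 : ((1 - q) * ζ) ^ 2 ≤ ζ ^ 2 := by
      have : (1 - q) ^ 2 ≤ 1 := by nlinarith
      rw [mul_pow]
      have := mul_le_mul_of_nonneg_right this (sq_nonneg ζ)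
      linarith
    have hq2 : q ^ 2 ≤ 1 := by nlinarith
    have h5 : (-q * X) ^ 2 ≤ X ^ 2 := by
      have := mul_le_mul_of_nonneg_right hq2 (sq_nonneg X)
      linarith [mul_pow q X 2, neg_mul q X, neg_sq (q * X)]
    have h6 : (-q * Y) ^ 2 ≤ Y ^ 2 := by
      have := mul_le_mul_of_nonneg_right hq2 (sq_nonneg Y)
      linarith [mul_pow q Y 2, neg_mul q Y, neg_sq (q * Y)]
    have h7 : ((1 - q) * ζ + t + δ + -q * X + -q * Y) ^ 2 ≤
        5 * (ζ ^ 2 + X ^ 2 + Y ^ 2) + 5 * t ^ 2 + 5 * δ ^ 2 := by linarith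
    have h8 := mul_le_mul_of_nonneg_left h7 w0
    have h9 : (r (j + 1) ^ 2 - r (j + 2) ^ 2) * (5 * t ^ 2) ≤
        10 / 3 * (nu r (j + 1) * t ^ 2) := by
      have := mul_le_mul_of_nonneg_right w1 (sq_nonneg t)
      linarith
    have h10 : (r (j + 1) ^ 2 - r (j + 2) ^ 2) * (5 * δ ^ 2) ≤ 5 * (Gs r (j + 1) * δ ^ 2) := by
      have := mul_le_mul_of_nonneg_right w2 (sq_nonneg δ)
      linarith
    linarith
  have h3 : (∑ j ∈ Finset.Ico c n, (r (j + 1) ^ 2 - r (j + 2) ^ 2)) *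
      (5 * (ζ ^ 2 + X ^ 2 + Y ^ 2)) ≤ 1 / 9 * (5 * (ζ ^ 2 + X ^ 2 + Y ^ 2)) :=
    mul_le_mul_of_nonneg_right h1 (by positivity)
  linarith

theorem hsb_BA (hR : Rts n c r) (hS : Sta n r S Z ZZ) (hcn : c < n) :
    ∑ l ∈ Finset.Ico c n, dy S l * ap c r Z ZZ l ^ 2 ≤
      2 * Lq n c r S Z ZZ + 4 * (1 - S c) * (4 / 3 * bs S Z c ^ 2 + 4 / 9 * bs S ZZ c ^ 2) := by
  have hSc : 0 < S c := sta_pos hS c hcn.le
  have h1 : ∑ l ∈ Finset.Ico c n, dy S l * ap c r Z ZZ l ^ 2 ≤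
      2 * Lq n c r S Z ZZ + (S c ^ 2 * ∑ l ∈ Finset.Ico c n, dy S l) *
        (2 * (4 / 3 * bs S Z c ^ 2 + 4 / 9 * bs S ZZ c ^ 2)) := by
    unfold Lq
    rw [Finset.mul_sum, Finset.mul_sum, Finset.sum_mul, ← Finset.sum_add_distrib]
    apply Finset.sum_le_sum
    intro l hl
    have hl' := Finset.mem_Ico.mp hl
    have h0 := rts_nonneg hR (l + 1) (by omega)
    have h2 := hR.rc' (l + 1) (by omega) (by omega)
    have e : ap c r Z ZZ l = al r Z ZZ l - S c * (bs S Z c - r (l + 1) * bs S ZZ c) := by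
      simp only [ap, al, bs]
      field_simp
      ring
    set B := bs S Z c
    set E := bs S ZZ c
    have h3 : (B - r (l + 1) * E) ^ 2 ≤ 4 / 3 * B ^ 2 + 4 / 9 * E ^ 2 := by
      have h4 : (r (l + 1) * E) ^ 2 ≤ 1 / 9 * E ^ 2 := by
        rw [mul_pow]
        apply mul_le_mul_of_nonneg_right _ (sq_nonneg _)
        nlinarith
      nlinarith [sq_nonneg (B + 3 * (r (l + 1) * E))]
    have h4 : ap c r Z ZZ l ^ 2 ≤ 2 * al r Z ZZ l ^ 2 +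
        2 * (S c ^ 2 * (B - r (l + 1) * E) ^ 2) := by
      rw [e]
      nlinarith [sq_nonneg (al r Z ZZ l + S c * (B - r (l + 1) * E))]
    have h5 := mul_le_mul_of_nonneg_left h3 (sq_nonneg (S c))
    have h6 : ap c r Z ZZ l ^ 2 ≤ 2 * al r Z ZZ l ^ 2 +
        2 * (S c ^ 2 * (4 / 3 * B ^ 2 + 4 / 9 * E ^ 2)) := by linarith
    have h7 := mul_le_mul_of_nonneg_left h6 (dy_nonneg hS l hl)
    linarith
  have h2 : (S c ^ 2 * ∑ l ∈ Finset.Ico c n, dy S l) *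
        (2 * (4 / 3 * bs S Z c ^ 2 + 4 / 9 * bs S ZZ c ^ 2)) ≤
      2 * (1 - S c) * (2 * (4 / 3 * bs S Z c ^ 2 + 4 / 9 * bs S ZZ c ^ 2)) :=
    mul_le_mul_of_nonneg_right (dy_sum hS hcn) (by positivity)
  linarith

theorem hsb_BB (hS : Sta n r S Z ZZ) (hcn : c < n) :
    ∑ l ∈ Finset.Ico c n, dy S l *
        (1 / 2 * ap c r Z ZZ l ^ 2 + 9 / 2 * (S c * bs S Z c) ^ 2) ≤
      1 / 2 * (∑ l ∈ Finset.Ico c n, dy S l * ap c r Z ZZ l ^ 2) +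
        9 * (1 - S c) * bs S Z c ^ 2 := by
  have e : ∑ l ∈ Finset.Ico c n, dy S l *
        (1 / 2 * ap c r Z ZZ l ^ 2 + 9 / 2 * (S c * bs S Z c) ^ 2) =
      1 / 2 * (∑ l ∈ Finset.Ico c n, dy S l * ap c r Z ZZ l ^ 2) +
      (S c ^ 2 * ∑ l ∈ Finset.Ico c n, dy S l) * (9 / 2 * bs S Z c ^ 2) := by
    rw [Finset.mul_sum, Finset.mul_sum, Finset.sum_mul, ← Finset.sum_add_distrib]
    apply Finset.sum_congr rfl
    intro l _
    ring
  rw [e]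
  have h2 : (S c ^ 2 * ∑ l ∈ Finset.Ico c n, dy S l) * (9 / 2 * bs S Z c ^ 2) ≤
      2 * (1 - S c) * (9 / 2 * bs S Z c ^ 2) :=
    mul_le_mul_of_nonneg_right (dy_sum hS hcn) (by positivity)
  linarith

theorem hsb_Q3 (hR : Rts n c r) (hS : Sta n r S Z ZZ) (hcn : c < n) (ζ X u : ℝ)
    (hX : X = bs S Z c - ζ) (hu : u = Z n - ζ) :
    ap c r Z ZZ n ^ 2 ≤ 3 * (ζ ^ 2 + X ^ 2 + u ^ 2) := by
  have hSc : 0 < S c := sta_pos hS c hcn.le
  have hSc1 : S c ≤ 1 := sta_le_one hS hcn.le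
  have e : ap c r Z ZZ n = (1 - S c) * ζ + u + (-(S c) * X) := by
    rw [hX, hu]
    unfold bs ap
    rw [hR.rlast]
    field_simp
    ring
  rw [e]
  have h1 : ((1 - S c) * ζ) ^ 2 ≤ ζ ^ 2 := by
    have h0 : (1 - S c) ^ 2 ≤ 1 := by nlinarith
    rw [mul_pow]
    have := mul_le_mul_of_nonneg_right h0 (sq_nonneg ζ)
    linarith
  have h2 : (-(S c) * X) ^ 2 ≤ X ^ 2 := by
    have h0 : (-(S c)) ^ 2 ≤ 1 := by nlinarith
    rw [mul_pow]
    have := mul_le_mul_of_nonneg_right h0 (sq_nonneg X)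
    linarith
  set p := (1 - S c) * ζ
  set q := -(S c) * X
  nlinarith [sq_nonneg (p - u), sq_nonneg (p - q), sq_nonneg (u - q)]

end pieces

/-- The final combination (real numbers only). -/
theorem hsb_comb {τ ζ X Y u b e a B G L E D K1 K2 K3 K4 H : ℝ} (hτ0 : 0 ≤ τ) (hτ1 : τ ≤ 1)
    (hB : 0 ≤ B) (hG : 0 ≤ G) (Q1 : b ^ 2 ≤ 2 * ζ ^ 2 + 2 * X ^ 2)
    (Q2 : e ^ 2 ≤ 3 * (ζ ^ 2 + X ^ 2 + Y ^ 2)) (Q3 : a ^ 2 ≤ 3 * (ζ ^ 2 + X ^ 2 + u ^ 2))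
    (h1 : -(3 / 8 * τ * |b * e|) ≤ K1)
    (h2 : -(τ * (b ^ 2 + a ^ 2)) - (1 / 2 * D + 9 * τ * b ^ 2) ≤ K2)
    (h3 : -(1 / 3 * (τ * (3 * e ^ 2 + 2 * ζ ^ 2 + 2 * X ^ 2)) + 1 / 2 * B) ≤ K3)
    (h4 : -(1 / 2 * τ * a ^ 2) - 1 / 2 * D - 1 / 2 * τ * E ≤ K4)
    (hE : E ≤ 5 / 9 * (ζ ^ 2 + X ^ 2 + Y ^ 2) + 10 / 3 * B + 5 * G)
    (hD : D ≤ 2 * L + 4 * τ * (4 / 3 * b ^ 2 + 4 / 9 * e ^ 2))
    (hH : H = K1 + K2 + K3 + K4) :
    -(τ * (62 * ζ ^ 2 + 62 * X ^ 2 + 12 * Y ^ 2 + 12 * u ^ 2) +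
      5 / 2 * B + 5 / 2 * G + 2 * L) ≤ H := by
  have Q4 : |b * e| ≤ 1 / 2 * (b ^ 2 + e ^ 2) := by
    rw [abs_mul, ← sq_abs b, ← sq_abs e]
    nlinarith [sq_nonneg (|b| - |e|)]
  have T1 : τ * (3 / 8 * |b * e| + b ^ 2 + 3 / 2 * a ^ 2 +
      (16 / 3 * b ^ 2 + 16 / 9 * e ^ 2) + 9 * b ^ 2 +
      1 / 3 * (3 * e ^ 2 + 2 * ζ ^ 2 + 2 * X ^ 2) +
      1 / 2 * (5 / 9 * (ζ ^ 2 + X ^ 2 + Y ^ 2))) ≤
      τ * (62 * ζ ^ 2 + 62 * X ^ 2 + 12 * Y ^ 2 + 12 * u ^ 2) := by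
    apply mul_le_mul_of_nonneg_left _ hτ0
    linarith [sq_nonneg ζ, sq_nonneg X, sq_nonneg Y, sq_nonneg u]
  have T2 : 1 / 2 * τ * E ≤
      τ * (1 / 2 * (5 / 9 * (ζ ^ 2 + X ^ 2 + Y ^ 2))) + 5 / 3 * B + 5 / 2 * G := by
    have h1 := mul_le_mul_of_nonneg_left hE (by positivity : (0:ℝ) ≤ 1 / 2 * τ)
    have h2 : τ * B ≤ B := by nlinarith
    have h3 : τ * G ≤ G := by nlinarith
    linarith
  rw [hH]
  linarith

theorem hsb : HsbStatement := by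
  intro n c lam Ā r η S Z ZZ ζ hP hS hcn hA0 hA
  have hR := hP.rts
  have hSc : 0 < S c := sta_pos hS c hcn.le
  have hSc1 : S c ≤ 1 := sta_le_one hS hcn.le
  have hB0 : 0 ≤ Bq n c r S Z ζ :=
    Finset.sum_nonneg fun j hj => mul_nonneg (nu_nonneg hR j hj) (sq_nonneg _)
  have hG0 : 0 ≤ Gq n c r S Z ZZ :=
    Finset.sum_nonneg fun j hj =>
      mul_nonneg ((r2_facts hR j hj).1.trans (r2_facts hR j hj).2.2) (sq_nonneg _)
  have hL0 : 0 ≤ Lq n c r S Z ZZ :=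
    Finset.sum_nonneg fun j hj => mul_nonneg (dy_nonneg hS j hj) (sq_nonneg _)
  set X := bs S Z c - ζ with hX
  set Y := bs S ZZ c - bs S Z c with hY
  set u := Z n - ζ with hu
  have Q1 : bs S Z c ^ 2 ≤ 2 * ζ ^ 2 + 2 * X ^ 2 := by
    have : bs S Z c = ζ + X := by rw [hX]; ring
    rw [this]
    nlinarith [sq_nonneg (ζ - X)]
  have Q2 : bs S ZZ c ^ 2 ≤ 3 * (ζ ^ 2 + X ^ 2 + Y ^ 2) := by
    have : bs S ZZ c = ζ + X + Y := by rw [hX, hY]; ring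
    rw [this]
    nlinarith [sq_nonneg (ζ - X), sq_nonneg (ζ - Y), sq_nonneg (X - Y)]
  have B2 : -((1 - S c) * (bs S Z c ^ 2 + ap c r Z ZZ n ^ 2)) -
      (1 / 2 * (∑ l ∈ Finset.Ico c n, dy S l * ap c r Z ZZ l ^ 2) +
        9 * (1 - S c) * bs S Z c ^ 2) ≤
      -(2 * bs S Z c * (s1 c S n * ap c r Z ZZ n +
          ∑ l ∈ Finset.Ico c n, ap c r Z ZZ l * (s1 c S l - s1 c S (l + 1)))) := by
    have h1 := hsb_B2a hS hcn
    have h2 := hsb_B2b hS hcn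
    have h3 := hsb_BB hS hcn
    rw [mul_add (2 * bs S Z c)]
    linarith
  have hfin := hsb_comb (u := u) (by linarith : 0 ≤ 1 - S c) (by linarith) hB0 hG0 Q1 Q2
    (hsb_Q3 hR hS hcn ζ X u hX hu) (hsb_B1 hR hS hcn) B2 (hsb_B3 hR hS hcn ζ X hX)
    (hsb_B4 hR hS hcn) (hsb_BE hR hS hcn ζ X Y hX hY) (hsb_BA hR hS hcn)
    (H := Hf n c r S Z ZZ) (by
      rw [hsb_exact hR hS hcn]
      ring)
  have hτ0 : 0 ≤ 1 - S c := by linarith
  have hτ1 : 1 - S c ≤ 1 := by linarith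
  generalize 1 - S c = τ at hfin hτ0 hτ1 ⊢
  generalize Bq n c r S Z ζ = B at hfin hB0 ⊢
  generalize Gq n c r S Z ZZ = G at hfin hG0 ⊢
  generalize Lq n c r S Z ZZ = Lw at hfin hL0 ⊢
  generalize Hf n c r S Z ZZ = H at hfin ⊢
  have hA4 : 4 * Ā ≤ 8 / 1000000 := by linarith
  have h40 : 0 ≤ 4 * Ā := by linarith
  have hΦ : 0 ≤ τ * (62 * ζ ^ 2 + 62 * X ^ 2 + 12 * Y ^ 2 + 12 * u ^ 2) +
      5 / 2 * B + 5 / 2 * G + 2 * Lw := by positivity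
  have h3 : τ * X ^ 2 ≤ X ^ 2 := mul_le_of_le_one_left (sq_nonneg X) hτ1
  have h4 : τ * Y ^ 2 ≤ Y ^ 2 := mul_le_of_le_one_left (sq_nonneg Y) hτ1
  have h5 : τ * u ^ 2 ≤ u ^ 2 := mul_le_of_le_one_left (sq_nonneg u) hτ1
  have h6 : 0 ≤ τ * ζ ^ 2 := by positivity
  have h7 : 8 / 1000000 * (τ * (62 * ζ ^ 2 + 62 * X ^ 2 + 12 * Y ^ 2 + 12 * u ^ 2) +
      5 / 2 * B + 5 / 2 * G + 2 * Lw) ≤
      5 / 10000 * τ * ζ ^ 2 + 5 / 10000 * X ^ 2 + 1 / 10000 * Y ^ 2 + 1 / 10000 * u ^ 2 +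
        2 / 100000 * B + 1 / 100 * G + 1 / 100 * Lw := by
    linarith [sq_nonneg X, sq_nonneg Y, sq_nonneg u]
  generalize τ * (62 * ζ ^ 2 + 62 * X ^ 2 + 12 * Y ^ 2 + 12 * u ^ 2) +
      5 / 2 * B + 5 / 2 * G + 2 * Lw = Φ at hfin hΦ h7
  have h1 := mul_le_mul_of_nonneg_left hfin h40
  have h2 := mul_le_mul_of_nonneg_right hA4 hΦ
  linarith

end Pool.Agent.Lib.MP_4fbe7c_an.UL.H54
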