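import Pool.Agent.Lib.MP_4fbe7c_an.UL.Iface
import Pool.Agent.Lib.MP_4fbe7c_an.UL.H54.Hsb

/-!
Project UL (MP_4fbe7c_an), module ALG: the algebraic theorem.
-/

set_option autoImplicit false

open Set

namespace Pool.Agent.Lib.MP_4fbe7c_an.UL.H54

open Pool.Agent.Lib.MP_4fbe7c_an.UL

/-! ### Elementary facts -/

theorem vend_le {ζ X Y : ℝ} (hζ : 0 ≤ ζ) :
    (max 0 (51 / 1250 * ζ - max 0 (ζ + X - Y / 2))) ^ 2 ≤ 543 / 100000 * (X ^ 2 + Y ^ 2 / 8) := by
  set D := max 0 (51 / 1250 * ζ - max 0 (ζ + X - Y / 2)) with hD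
  have hD0 : 0 ≤ D := le_max_left _ _
  rcases le_or_gt (51 / 1250 * ζ - max 0 (ζ + X - Y / 2)) 0 with h | h
  · have : D = 0 := max_eq_left h
    rw [this, zero_pow two_ne_zero]
    positivity
  · have h1 : D = 51 / 1250 * ζ - max 0 (ζ + X - Y / 2) := max_eq_right h.le
    have h2 : 0 ≤ max 0 (ζ + X - Y / 2) := le_max_left _ _
    have h3 : ζ + X - Y / 2 ≤ max 0 (ζ + X - Y / 2) := le_max_right _ _
    have h4 : D ≤ 51 / 1250 * ζ := by linarith
    have h5 : (1 - 51 / 1250) * ζ ≤ Y / 2 - X := by linarith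
    set E := Y / 2 - X with hE
    have h6 : D ≤ 51 / 1199 * E := by linarith
    have h7 : D ^ 2 ≤ (51 / 1199 * E) ^ 2 := pow_le_pow_left₀ hD0 h6 2
    have h8 : E ^ 2 ≤ 3 * (X ^ 2 + Y ^ 2 / 8) := by
      rw [hE]
      nlinarith [sq_nonneg (Y / 2 + 2 * X)]
    nlinarith [sq_nonneg X, sq_nonneg Y]

theorem hh_nonneg {t : ℝ} (h0 : 0 ≤ t) (h1 : t < 1) : 0 ≤ hh t := by
  unfold hh
  apply div_nonneg (sq_nonneg _)
  nlinarith

theorem hh_mono {s t : ℝ} (h0 : 0 ≤ s) (hst : s ≤ t) (h1 : t < 1) : hh s ≤ hh t := by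
  have := gs_ge h0 hst h1
  nlinarith

theorem hh_third : hh (1 / 3) = 1 / 8 := by
  unfold hh
  norm_num

theorem hh_zero : hh 0 = 0 := by
  unfold hh
  norm_num

section facts

variable {n c : ℕ} {r : ℕ → ℝ}

theorem rts_lt_one (hR : Rts n c r) : ∀ k, 1 ≤ k → k ≤ n + 1 → r k < 1 := by
  intro k hk
  induction k, hk using Nat.le_induction with
  | base => intro _; exact hR.r1
  | succ k hk ih => intro h; exact (hR.ranti k (by omega)).trans_lt (ih (by omega))

theorem gs_nonneg (hR : Rts n c r) {j : ℕ} (hj : j < n) : 0 ≤ Gs r (j + 1) := by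
  have h := hh_mono (rts_nonneg hR (j + 2) (by omega)) (hR.ranti (j + 1) (by omega))
    (rts_lt_one hR (j + 1) (by omega) (by omega))
  have e : Gs r (j + 1) = hh (r (j + 1)) - hh (r (j + 2)) := rfl
  rw [e]
  linarith

end facts

section pars

variable {n c : ℕ} {lam : ℝ} {r η : ℕ → ℝ}

/-- The coefficients of `δ ^ 2`. -/
theorem f_ge (hP : Par n c lam r η) {j : ℕ} (hj : j < n) :
    Gs r (j + 1) ≤ (1 + η (j + 1)) * hh (r (j + 1)) - (1 + η (j + 2)) * hh (r (j + 2)) := by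
  have hR := hP.rts
  have h1 : 0 ≤ hh (r (j + 1)) := hh_nonneg (rts_nonneg hR (j + 1) (by omega))
    (rts_lt_one hR (j + 1) (by omega) (by omega))
  have e : Gs r (j + 1) = hh (r (j + 1)) - hh (r (j + 2)) := rfl
  have hη := (hP.etab (j + 1) (by omega) (by omega)).1
  rcases Nat.lt_or_ge (j + 1) n with h | h
  · have h2 := gs_nonneg hR hj
    rw [e] at h2 ⊢
    have h3 : η (j + 2) ≤ η (j + 1) := hP.etaanti (j + 1) (by omega) h
    have h4 := (hP.etab (j + 2) (by omega) (by omega)).1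
    have h5 := mul_le_mul_of_nonneg_right h3 h1
    have h6 := mul_nonneg h4 h2
    linarith
  · have h2 : j + 2 = n + 1 := by omega
    rw [e, h2, hR.rlast, hh_zero]
    have := mul_nonneg hη h1
    linarith

theorem f_ge_c (hP : Par n c lam r η) (hc : 1 ≤ c) (hcn : c < n) :
    Gs r c + 79 / 80000 ≤ (1 + η c) * hh (r c) - (1 + η (c + 1)) * hh (r (c + 1)) := by
  have hR := hP.rts
  have h1 : 1 / 8 ≤ hh (r c) := by
    rw [← hh_third]
    exact hh_mono (by norm_num) (hR.rc c le_rfl) (rts_lt_one hR c hc (by omega))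
  have h2 : 0 ≤ Gs r c := by
    obtain ⟨j, rfl⟩ := Nat.exists_eq_add_of_le' hc
    exact gs_nonneg hR (by omega)
  have e : Gs r c = hh (r c) - hh (r (c + 1)) := rfl
  rw [e] at h2 ⊢
  have h3 := hP.etac hc hcn
  have h4 := (hP.etab (c + 1) (by omega) (by omega)).1
  have h5 : 79 / 10000 * (1 / 8) ≤ (η c - η (c + 1)) * hh (r c) :=
    mul_le_mul h3 h1 (by norm_num) (by linarith)
  have h6 := mul_nonneg h4 h2
  linarith

theorem eta_diff_nonneg (hP : Par n c lam r η) {k : ℕ} (hk : k < n) : 0 ≤ η k - η (k + 1) := by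
  rcases Nat.eq_zero_or_pos k with h | h
  · rw [h, hP.eta0]
    have := (hP.etab 1 le_rfl (by omega)).2
    norm_num at this ⊢
    linarith
  · linarith [hP.etaanti k h hk]

theorem eta_diff_zero (hP : Par n c lam r η) (hn : 1 ≤ n) : 98 / 100 ≤ η 0 - η (0 + 1) := by
  rw [hP.eta0]
  have := (hP.etab 1 le_rfl hn).2
  norm_num at this ⊢
  linarith

end pars

/-! ### The symmetry `ζ → -ζ` -/

theorem sta_neg {n : ℕ} {r S Z ZZ : ℕ → ℝ} (h : Sta n r S Z ZZ) :
    Sta n r S (fun k => -Z k) (fun k => -ZZ k) where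
  S0 := h.S0
  mono := h.mono
  Sn := h.Sn
  Z0 := by rw [h.Z0]
  step := fun k hk => by
    have := h.step k hk
    linarith

theorem bs_neg (S Z : ℕ → ℝ) (k : ℕ) : bs S (fun k => -Z k) k = -bs S Z k := by
  unfold bs
  rw [neg_div]

theorem nf_neg (n : ℕ) (r S Z ZZ : ℕ → ℝ) (ζ : ℝ) :
    Nf n r S (fun k => -Z k) (fun k => -ZZ k) (-ζ) = Nf n r S Z ZZ ζ := by
  unfold Nf
  simp only [bs_neg]
  congr 1
  · ring
  · apply Finset.sum_congr rfl
    intro j _
    ring

theorem qf_neg (n c : ℕ) (lam Ā : ℝ) (r η S Z ZZ : ℕ → ℝ) (ζ : ℝ) :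
    Qf n c lam Ā r η S (fun k => -Z k) (fun k => -ZZ k) (-ζ) = Qf n c lam Ā r η S Z ZZ ζ := by
  have h1 : Tf n c r S (fun k => -ZZ k) = -Tf n c r S ZZ := by
    unfold Tf
    simp only [bs_neg]
    rw [← Finset.sum_neg_distrib]
    apply Finset.sum_congr rfl
    intro j _
    ring
  have h2 : Hf n c r S (fun k => -Z k) (fun k => -ZZ k) = Hf n c r S Z ZZ := by
    unfold Hf
    simp only [bs_neg]
    apply Finset.sum_congr rfl
    intro j _
    ring
  have h3 : Qlog n r η S (fun k => -Z k) (fun k => -ZZ k) (-ζ) = Qlog n r η S Z ZZ ζ := by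
    unfold Qlog
    simp only [bs_neg, mul_neg, Finset.sum_neg_distrib, neg_mul, neg_neg]
    ring
  unfold Qf
  rw [h1, h2, h3]
  ring

/-! ### Main estimate -/

theorem alg_pos (hExi : ExiStatement) (hClu : CluStatement) (hOut : OutStatement)
    {n c : ℕ} {lam Ā : ℝ} {r η S Z ZZ : ℕ → ℝ} {ζ : ℝ} (hP : Par n c lam r η)
    (hS : Sta n r S Z ZZ) (hA0 : 0 ≤ Ā) (hA : Ā ≤ 2 / 1000000) (hζ : 0 ≤ ζ) :
    1 / 2 * Nf n r S Z ZZ ζ ≤ 4 * Qf n c lam Ā r η S Z ZZ ζ := by
  have hR := hP.rts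
  have hexi := hExi n r η S Z ZZ ζ hS hR.r0 hR.rlast hP.eta0 hR.rpos
    (fun k h1 h2 => rts_lt_one hR k h1 (by omega))
  have h4Q : 4 * Qf n c lam Ā r η S Z ZZ ζ = 4 * Qlog n r η S Z ZZ ζ +
      4 * lam * ζ * Tf n c r S ZZ + 4 * Ā * Hf n c r S Z ZZ := by
    unfold Qf
    ring
  rw [h4Q, hexi]
  unfold Nf
  -- names
  set u := Z n - ζ with hu
  set v := bs S Z 0 - ζ with hv
  have hbn : bs S Z n = Z n := by
    unfold bs
    rw [hS.Sn, div_one]
  have hb0 : bs S ZZ 0 = bs S Z 0 := by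
    unfold bs
    rw [hS.Z0]
  have hFnn : ∀ j, j < n → 0 ≤ ((1 + η (j + 1)) * hh (r (j + 1)) -
      (1 + η (j + 2)) * hh (r (j + 2)) - Gs r (j + 1)) *
        (bs S ZZ (j + 1) - bs S Z (j + 1)) ^ 2 := fun j hj =>
    mul_nonneg (by linarith [f_ge hP hj]) (sq_nonneg _)
  have hGnn : ∀ j, j < n → 0 ≤ Gs r (j + 1) * (bs S ZZ (j + 1) - bs S Z (j + 1)) ^ 2 :=
    fun j hj => mul_nonneg (gs_nonneg hR hj) (sq_nonneg _)
  have hAnn : ∀ k, k < n → 0 ≤ (η k - η (k + 1)) * (bs S Z k - ζ) ^ 2 := fun k hk =>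
    mul_nonneg (eta_diff_nonneg hP hk) (sq_nonneg _)
  rcases Nat.eq_zero_or_pos n with hn0 | hn
  · -- n = 0
    subst hn0
    have hc0 : c = 0 := by have := hR.cn; omega
    subst hc0
    have e1 : v = u := by rw [hv, hu, hbn]
    simp only [Finset.range_zero, Finset.sum_empty, Tf, Hf, Finset.Ico_self]
    rw [e1, hP.eta0]
    nlinarith [sq_nonneg u]
  have hη : 0 ≤ η n := (hP.etab n hn le_rfl).1
  have hu2 : 2 * u ^ 2 ≤ 2 * (1 + η n) * u ^ 2 := by
    have := mul_nonneg hη (sq_nonneg u)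
    linarith
  rcases Nat.lt_or_ge c n with hcn | hcn
  · -- c < n
    have hout := hOut n c lam Ā r η S Z ZZ ζ hP hS hcn hζ hA0 hA
    rw [← hu] at hout
    set X := bs S Z c - ζ with hX
    set Y := bs S ZZ c - bs S Z c with hY
    -- split the sums at c
    have sF := Finset.sum_range_add_sum_Ico (fun j => ((1 + η (j + 1)) * hh (r (j + 1)) -
      (1 + η (j + 2)) * hh (r (j + 2))) * (bs S ZZ (j + 1) - bs S Z (j + 1)) ^ 2) hcn.le
    have sG := Finset.sum_range_add_sum_Ico (fun j => Gs r (j + 1) *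
      (bs S ZZ (j + 1) - bs S Z (j + 1)) ^ 2) hcn.le
    have sL := Finset.sum_range_add_sum_Ico (fun j => lev r η S Z ZZ ζ j) hcn.le
    have sA := Finset.sum_range_add_sum_Ico (fun k => (η k - η (k + 1)) *
      (bs S Z k - ζ) ^ 2) (show c + 1 ≤ n by omega)
    rw [Finset.sum_range_succ] at sA
    simp only [] at sF sG sL sA
    -- outer sums
    have hFo : Gq n c r S Z ZZ ≤ ∑ j ∈ Finset.Ico c n, ((1 + η (j + 1)) * hh (r (j + 1)) -
      (1 + η (j + 2)) * hh (r (j + 2))) * (bs S ZZ (j + 1) - bs S Z (j + 1)) ^ 2 := by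
      unfold Gq
      apply Finset.sum_le_sum
      intro j hj
      have := hFnn j (Finset.mem_Ico.mp hj).2
      linarith
    have hGq : ∑ j ∈ Finset.Ico c n, Gs r (j + 1) *
      (bs S ZZ (j + 1) - bs S Z (j + 1)) ^ 2 = Gq n c r S Z ZZ := rfl
    have hGq0 : 0 ≤ Gq n c r S Z ZZ := Finset.sum_nonneg fun j hj =>
      hGnn j (Finset.mem_Ico.mp hj).2
    have hBq : 3 / 100000 * Bq n c r S Z ζ ≤ 2 * (∑ k ∈ Finset.Ico (c + 1) n,
        (η k - η (k + 1)) * (bs S Z k - ζ) ^ 2) + 1 / 100000 * u ^ 2 := by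
      obtain ⟨n', rfl⟩ : ∃ n', n = n' + 1 := ⟨n - 1, by omega⟩
      have e1 : Bq (n' + 1) c r S Z ζ = (∑ k ∈ Finset.Ico (c + 1) (n' + 1),
          nu r k * (bs S Z k - ζ) ^ 2) + nu r (n' + 1) * u ^ 2 := by
        unfold Bq
        rw [Finset.sum_Ico_succ_top (by omega), hbn,
          Finset.sum_Ico_add' (fun k => nu r k * (bs S Z k - ζ) ^ 2) c n' 1]
      have h1 : nu r (n' + 1) ≤ 1 / 3 := by
        have h2 := hR.rc' (n' + 1) (by omega) (by omega)
        have h3 := rts_nonneg hR (n' + 2) (by omega)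
        have e : nu r (n' + 1) = r (n' + 1) - r (n' + 2) := rfl
        rw [e]
        linarith
      have h2 : nu r (n' + 1) * u ^ 2 ≤ 1 / 3 * u ^ 2 :=
        mul_le_mul_of_nonneg_right h1 (sq_nonneg _)
      have h3 : 3 / 100000 * (∑ k ∈ Finset.Ico (c + 1) (n' + 1),
          nu r k * (bs S Z k - ζ) ^ 2) ≤ 2 * (∑ k ∈ Finset.Ico (c + 1) (n' + 1),
        (η k - η (k + 1)) * (bs S Z k - ζ) ^ 2) := by
        rw [Finset.mul_sum, Finset.mul_sum]
        apply Finset.sum_le_sum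
        intro k hk
        have hk' := Finset.mem_Ico.mp hk
        have h4 := (hP.etadiff k (by omega) hk'.2).1
        have h5 : 0 ≤ nu r k := by
          have := hR.ranti k (by omega)
          unfold nu
          linarith
        have h6 : 3 / 100000 * nu r k ≤ 2 * (η k - η (k + 1)) := by linarith
        have h7 := mul_le_mul_of_nonneg_right h6 (sq_nonneg (bs S Z k - ζ))
        linarith
      rw [e1]
      linarith
    rcases Nat.eq_zero_or_pos c with hc0 | hc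
    · -- c = 0
      subst hc0
      have e1 : X = v := rfl
      have e2 : Y = 0 := by rw [hY, hb0, sub_self]
      simp only [Finset.range_zero, Finset.sum_empty, zero_add] at sF sG sL sA
      have h1 : 98 / 100 * v ^ 2 ≤ (η 0 - η (0 + 1)) * (bs S Z 0 - ζ) ^ 2 :=
        mul_le_mul_of_nonneg_right (eta_diff_zero hP hn) (sq_nonneg _)
      simp only [zero_add] at h1
      rw [e1, e2] at hout
      rw [← sF, ← sG, ← sL, ← sA, hGq]
      linarith [sq_nonneg u, sq_nonneg v]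
    · -- 1 ≤ c < n
      have hclu := hClu n c lam r η S Z ZZ ζ hP hS hζ hc
      rw [← hY] at hclu
      have hV := vend_le (X := X) (Y := Y) hζ
      have e1 : bs S Z c - Y / 2 = ζ + X - Y / 2 := by rw [hX]; ring
      rw [e1] at hclu
      obtain ⟨c', rfl⟩ : ∃ c', c = c' + 1 := ⟨c - 1, by omega⟩
      rw [Finset.sum_range_succ] at sF sG
      have hfc := f_ge_c hP hc hcn
      have hhc : hh (r (c' + 1)) - 1 / 8 ≤ Gs r (c' + 1) := by
        have h1 : hh (r (c' + 1 + 1)) ≤ 1 / 8 := by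
          rw [← hh_third]
          exact hh_mono (rts_nonneg hR _ (by omega)) (hR.rc' (c' + 1 + 1) (by omega) (by omega))
            (by norm_num)
        unfold Gs
        linarith
      have hGc : 0 ≤ Gs r (c' + 1) := gs_nonneg hR (by omega)
      have hY2 : 0 ≤ Y ^ 2 := sq_nonneg Y
      have k1 : (Gs r (c' + 1) + 79 / 80000) * Y ^ 2 ≤ ((1 + η (c' + 1)) * hh (r (c' + 1)) -
          (1 + η (c' + 2)) * hh (r (c' + 2))) * Y ^ 2 := mul_le_mul_of_nonneg_right hfc hY2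
      have k2 : (hh (r (c' + 1)) - 1 / 8) * Y ^ 2 ≤ Gs r (c' + 1) * Y ^ 2 :=
        mul_le_mul_of_nonneg_right hhc hY2
      have k3 : 0 ≤ Gs r (c' + 1) * Y ^ 2 := mul_nonneg hGc hY2
      have k4 : 79 / 10000 * X ^ 2 ≤ (η (c' + 1) - η (c' + 1 + 1)) * X ^ 2 :=
        mul_le_mul_of_nonneg_right (hP.etac hc hcn) (sq_nonneg X)
      have k5 : 98 / 100 * v ^ 2 ≤ ∑ k ∈ Finset.range (c' + 1),
          (η k - η (k + 1)) * (bs S Z k - ζ) ^ 2 := by
        have h1 : (η 0 - η (0 + 1)) * (bs S Z 0 - ζ) ^ 2 ≤ ∑ k ∈ Finset.range (c' + 1),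
          (η k - η (k + 1)) * (bs S Z k - ζ) ^ 2 :=
          Finset.single_le_sum (f := fun k => (η k - η (k + 1)) * (bs S Z k - ζ) ^ 2)
            (fun i hi => hAnn i (by have := Finset.mem_range.mp hi; omega))
            (Finset.mem_range.mpr (by omega))
        refine le_trans ?_ h1
        exact mul_le_mul_of_nonneg_right (eta_diff_zero hP hn) (sq_nonneg _)
      have k6 : ∑ j ∈ Finset.range c', Gs r (j + 1) * (bs S ZZ (j + 1) - bs S Z (j + 1)) ^ 2 ≤
          ∑ j ∈ Finset.range c', ((1 + η (j + 1)) * hh (r (j + 1)) -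
      (1 + η (j + 2)) * hh (r (j + 2))) * (bs S ZZ (j + 1) - bs S Z (j + 1)) ^ 2 := by
        apply Finset.sum_le_sum
        intro j hj
        have := hFnn j (by have := Finset.mem_range.mp hj; omega)
        linarith
      have k7 : 0 ≤ ∑ j ∈ Finset.range c', Gs r (j + 1) *
          (bs S ZZ (j + 1) - bs S Z (j + 1)) ^ 2 :=
        Finset.sum_nonneg fun j hj => hGnn j (by have := Finset.mem_range.mp hj; omega)
      have e2 : c' + 1 - 1 = c' := by omega
      rw [e2] at hclu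
      rw [← sF, ← sG, ← sL, ← sA, hGq]
      linarith [sq_nonneg u, sq_nonneg v, sq_nonneg X]
  · -- c = n
    have hcn' : c = n := le_antisymm hR.cn hcn
    subst hcn'
    have hclu := hClu c c lam r η S Z ZZ ζ hP hS hζ hn
    set Y := bs S ZZ c - bs S Z c with hY
    have hV := vend_le (X := u) (Y := Y) hζ
    have e1 : bs S Z c - Y / 2 = ζ + u - Y / 2 := by rw [hbn, hu]; ring
    rw [e1] at hclu
    have hT : Tf c c r S ZZ = 0 := by simp [Tf]
    have hH : Hf c c r S Z ZZ = 0 := by simp [Hf]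
    rw [hT, hH]
    obtain ⟨c', rfl⟩ : ∃ c', c = c' + 1 := ⟨c - 1, by omega⟩
    have e2 : c' + 1 - 1 = c' := by omega
    rw [e2] at hclu
    have hGc : Gs r (c' + 1) = hh (r (c' + 1)) := by
      have e : Gs r (c' + 1) = hh (r (c' + 1)) - hh (r (c' + 1 + 1)) := rfl
      rw [e, hR.rlast, hh_zero, sub_zero]
    have hfc := f_ge hP (show c' < c' + 1 by omega)
    have hY2 : 0 ≤ Y ^ 2 := sq_nonneg Y
    have k1 : Gs r (c' + 1) * Y ^ 2 ≤ ((1 + η (c' + 1)) * hh (r (c' + 1)) -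
          (1 + η (c' + 2)) * hh (r (c' + 2))) * Y ^ 2 := mul_le_mul_of_nonneg_right hfc hY2
    have k3 : 0 ≤ Gs r (c' + 1) * Y ^ 2 := mul_nonneg (gs_nonneg hR (by omega)) hY2
    have k5 : 98 / 100 * v ^ 2 ≤ ∑ k ∈ Finset.range (c' + 1),
        (η k - η (k + 1)) * (bs S Z k - ζ) ^ 2 := by
      have h1 : (η 0 - η (0 + 1)) * (bs S Z 0 - ζ) ^ 2 ≤ ∑ k ∈ Finset.range (c' + 1),
        (η k - η (k + 1)) * (bs S Z k - ζ) ^ 2 :=
        Finset.single_le_sum (f := fun k => (η k - η (k + 1)) * (bs S Z k - ζ) ^ 2)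
          (fun i hi => hAnn i (by have := Finset.mem_range.mp hi; omega))
          (Finset.mem_range.mpr (by omega))
      refine le_trans ?_ h1
      exact mul_le_mul_of_nonneg_right (eta_diff_zero hP hn) (sq_nonneg _)
    have k6 : ∑ j ∈ Finset.range c', Gs r (j + 1) * (bs S ZZ (j + 1) - bs S Z (j + 1)) ^ 2 ≤
        ∑ j ∈ Finset.range c', ((1 + η (j + 1)) * hh (r (j + 1)) -
      (1 + η (j + 2)) * hh (r (j + 2))) * (bs S ZZ (j + 1) - bs S Z (j + 1)) ^ 2 := by
      apply Finset.sum_le_sum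
      intro j hj
      have := hFnn j (by have := Finset.mem_range.mp hj; omega)
      linarith
    have k7 : 0 ≤ ∑ j ∈ Finset.range c', Gs r (j + 1) *
        (bs S ZZ (j + 1) - bs S Z (j + 1)) ^ 2 :=
      Finset.sum_nonneg fun j hj => hGnn j (by have := Finset.mem_range.mp hj; omega)
    rw [hGc] at k1 k3
    rw [Finset.sum_range_succ (fun j => ((1 + η (j + 1)) * hh (r (j + 1)) -
      (1 + η (j + 2)) * hh (r (j + 2))) * (bs S ZZ (j + 1) - bs S Z (j + 1)) ^ 2),
      Finset.sum_range_succ (fun j => Gs r (j + 1) *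
        (bs S ZZ (j + 1) - bs S Z (j + 1)) ^ 2), hGc, ← hY]
    linarith [sq_nonneg u, sq_nonneg v]

theorem alg (hExi : ExiStatement) (hClu : CluStatement) (hOut : OutStatement) :
    AlgStatement := by
  intro n c lam Ā r η S Z ZZ ζ hP hS hA0 hA
  rcases le_total 0 ζ with h | h
  · exact alg_pos hExi hClu hOut hP hS hA0 hA h
  · have := alg_pos hExi hClu hOut (ζ := -ζ) hP (sta_neg hS) hA0 hA (by linarith)
    rwa [nf_neg, qf_neg] at this

end Pool.Agent.Lib.MP_4fbe7c_an.UL.H54
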